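import Mathlib

namespace Pool.Agent.Results.MP_c8c065_al.RadicalNil

open Polynomial

lemma intJac : IsJacobsonRing ℤ := by
  rw [isJacobsonRing_iff_prime_eq]
  intro P hP
  by_cases h : P = ⊥
  · subst h
    rw [eq_bot_iff]
    intro x hx
    rw [Ideal.mem_jacobson_bot] at hx
    have h1 := Int.isUnit_iff.mp (hx 1)
    have h2 := Int.isUnit_iff.mp (hx (-1))
    simp only [Ideal.mem_bot]
    omega
  · have := hP.isMaximal h
    exact Ideal.jacobson_eq_self_of_isMaximal

/-- The Jacobson radical of a pi-UU ring is nil. -/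
theorem result {R : Type*} [Ring R]
    (h : ∀ u : Rˣ, ∃ i : ℕ, 1 ≤ i ∧ IsNilpotent ((u : R) ^ i - 1))
    (j : R) (hj : j ∈ Ring.jacobson R) : IsNilpotent j := by
  have := intJac
  let φ : ℤ[X] →+* R := (aeval j).toRingHom
  have hφ : φ X = j := by simp [φ]
  have h1 : X ∈ (RingHom.ker φ).radical.jacobson := by
    refine Ideal.jacobson_mono Ideal.le_radical (Ideal.mem_jacobson_iff.mpr fun y => ?_)
    have hu : IsUnit (φ (y * X + 1)) := by
      rw [← Ideal.jacobson_bot, Ideal.mem_jacobson_iff] at hj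
      rw [map_add, map_mul, hφ, map_one]
      obtain ⟨z, hz⟩ := hj (φ y)
      obtain ⟨w, hw⟩ := hj (-(z * φ y))
      rw [Ideal.mem_bot, sub_eq_zero] at hz hw
      have e1 : z * (φ y * j + 1) = 1 := by rw [mul_add, mul_one, ← mul_assoc]; exact hz
      have e2 : w * z = 1 := by
        have hz' : z = -(z * φ y) * j + 1 := by rw [← hz]; noncomm_ring
        calc w * z = w * (-(z * φ y) * j + 1) := by rw [← hz']
          _ = 1 := by rw [mul_add, mul_one, ← mul_assoc]; exact hw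
      have e3 : w = φ y * j + 1 := left_inv_eq_right_inv e2 e1
      exact ⟨⟨_, z, e3 ▸ e2, e1⟩, rfl⟩
    obtain ⟨i, hi, k, hk⟩ := h hu.unit
    obtain ⟨i, rfl⟩ : ∃ t, i = t + 1 := ⟨i - 1, by omega⟩
    refine ⟨(∑ t ∈ Finset.range k, (1 - (y * X + 1) ^ (i + 1)) ^ t) * (y * X + 1) ^ i, ?_⟩
    have e := geom_sum_mul_neg (1 - (y * X + 1) ^ (i + 1)) k
    have e2 : (∑ t ∈ Finset.range k, (1 - (y * X + 1) ^ (i + 1)) ^ t) * (y * X + 1) ^ i * y * X +
        (∑ t ∈ Finset.range k, (1 - (y * X + 1) ^ (i + 1)) ^ t) * (y * X + 1) ^ i - 1 =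
        -(1 - (y * X + 1) ^ (i + 1)) ^ k := by linear_combination e
    rw [IsUnit.unit_spec] at hk
    rw [e2, RingHom.mem_ker, map_neg, map_pow, map_sub, map_pow, map_one, ← neg_sub, neg_pow, hk]
    simp
  rw [IsJacobsonRing.out inferInstance (Ideal.radical_isRadical _)] at h1
  obtain ⟨n, hn⟩ := h1
  exact ⟨n, by rw [← hφ, ← map_pow]; exact hn⟩

end Pool.Agent.Results.MP_c8c065_al.RadicalNil
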